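import Mathlib
import Pool.Agent.Y502.PM.Cen

/-!
# Bi-interpretability of partially commutative groups with arithmetic

`comms Γ` is the normal subgroup of the free group on the vertices generated by the commutators of
adjacent vertices, and `PC Γ N` is the quotient of the free group by `comms Γ ⊔ N`; for
`N = derivedSeries (FreeGroup V) d` this is the partially commutative solvable group `PCS Γ d` of
derived length `d`, and `PCS Γ 2` is the partially commutative metabelian group `M_Γ` of the
problem. `Bi.BiInterpNat G` is bi-interpretability (with parameters) of the group `G` with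
`(ℕ; +, ·, 0, 1)`, see `Pool.Agent.H577R3.Bi`.
-/

set_option autoImplicit false

namespace Pool.Agent.Results.MP_5cf697_lc.DisconnectedComplement

open Pool.Agent.H577R3 Pool.Agent.Y502.PM

/-- **Main theorem.**
(1) Full answer to the question, in the negated form: some finite graph `Γ` has a partially
commutative metabelian group `M_Γ` with trivial centre which is not bi-interpretable with `ℕ`.
(2) Necessary condition, for all nonempty graphs (finite or not): if `M_Γ` is bi-interpretable with
`ℕ`, then the complement of `Γ` is connected.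
(3) Dichotomy for the complete multipartite graphs in which every part has at least two vertices
(non-adjacency is transitive, and every vertex is not adjacent to some other vertex): `M_Γ` has
trivial centre, and it is bi-interpretable with `ℕ` if and only if `Γ` has no edges. The same holds
for the partially commutative solvable groups of every derived length `d ≥ 2`.
(4) The condition (2) is necessary in every variety of groups which contains the infinite cyclic
group: let `N` be a fully invariant subgroup of the free group on the vertices which is contained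
in the commutator subgroup; if the partially commutative group `PC Γ N` is bi-interpretable with
`ℕ`, then the complement of `Γ` is connected (for `N = ⊥` these are the right-angled Artin
groups). -/
theorem result :
    (∃ (V : Type) (_ : Fintype V) (_ : Nonempty V) (Γ : SimpleGraph V),
      Subgroup.center (PCS Γ 2) = ⊥ ∧ ¬ Bi.BiInterpNat (PCS Γ 2)) ∧
    (∀ (V : Type) (_ : Nonempty V) (Γ : SimpleGraph V),
      Bi.BiInterpNat (PCS Γ 2) → Γᶜ.Connected) ∧
    (∀ (n : ℕ) (Γ : SimpleGraph (Fin n)), 1 ≤ n → Γ.IsCompleteMultipartite →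
      (∀ v, ∃ w, w ≠ v ∧ ¬ Γ.Adj v w) → ∀ d : ℕ, 2 ≤ d →
        Subgroup.center (PCS Γ d) = ⊥ ∧ (Bi.BiInterpNat (PCS Γ d) ↔ Γ = ⊥)) ∧
    (∀ (V : Type) (_ : Nonempty V) (Γ : SimpleGraph V) (N : Subgroup (FreeGroup V))
      (_ : N.Normal), FullyInvariant N → N ≤ commutator (FreeGroup V) →
        Bi.BiInterpNat (PC Γ N) → Γᶜ.Connected) := by
  have h4 : ∀ (V : Type) (_ : Nonempty V) (Γ : SimpleGraph V) (N : Subgroup (FreeGroup V))
      (_ : N.Normal), FullyInvariant N → N ≤ commutator (FreeGroup V) →
        Bi.BiInterpNat (PC Γ N) → Γᶜ.Connected := by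
    intro V _ Γ N _ hN hZ h
    exact connected_compl hN hZ h
  have h3 : ∀ (n : ℕ) (Γ : SimpleGraph (Fin n)), 1 ≤ n → Γ.IsCompleteMultipartite →
      (∀ v, ∃ w, w ≠ v ∧ ¬ Γ.Adj v w) → ∀ d : ℕ, 2 ≤ d →
        Subgroup.center (PCS Γ d) = ⊥ ∧ (Bi.BiInterpNat (PCS Γ d) ↔ Γ = ⊥) := by
    intro n Γ hn hΓ h2 d hd
    have : Nonempty (Fin n) := ⟨⟨0, hn⟩⟩
    refine ⟨center_trivial hd hΓ h2, ?_, ?_⟩
    · intro h
      exact not_connected hΓ (connected_compl (fi_ds d) (ds_le (by omega)) h)
    · rintro rfl
      have hn2 : 2 ≤ n := by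
        obtain ⟨w, hw, _⟩ := h2 ⟨0, hn⟩
        by_contra hc
        have h5 : n = 1 := by omega
        subst h5
        exact hw (Subsingleton.elim _ _)
      exact bi_bot hn2 hd
  refine ⟨?_, ?_, h3, h4⟩
  · -- the four-cycle, as a complete bipartite graph on four vertices
    let Γ : SimpleGraph (Fin 4) :=
      { Adj := fun a b => a.val % 2 ≠ b.val % 2
        symm := ⟨fun a b h => h.symm⟩
        loopless := ⟨fun a h => h rfl⟩ }
    have hΓ : Γ.IsCompleteMultipartite := by
      refine ⟨fun a b c h1 h2 => ?_⟩
      have e1 : a.val % 2 = b.val % 2 := not_not.1 h1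
      have e2 : b.val % 2 = c.val % 2 := not_not.1 h2
      exact not_not.2 (e1.trans e2)
    have h2 : ∀ v, ∃ w, w ≠ v ∧ ¬ Γ.Adj v w := by
      intro v
      fin_cases v
      · exact ⟨2, by decide, not_not.2 rfl⟩
      · exact ⟨3, by decide, not_not.2 rfl⟩
      · exact ⟨0, by decide, not_not.2 rfl⟩
      · exact ⟨1, by decide, not_not.2 rfl⟩
    obtain ⟨hc, hb⟩ := h3 4 Γ (by norm_num) hΓ h2 2 le_rfl
    refine ⟨Fin 4, inferInstance, inferInstance, Γ, hc, fun h => ?_⟩
    have h5 := hb.1 h
    have h6 : Γ.Adj 0 1 := by
      show (0 : ℕ) % 2 ≠ 1 % 2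
      norm_num
    rw [h5] at h6
    exact h6
  · intro V hV Γ h
    exact h4 V hV Γ _ inferInstance (fi_ds 2) (ds_le (by norm_num)) h

end Pool.Agent.Results.MP_5cf697_lc.DisconnectedComplement
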